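import Pool.Agent.H4.SE.Targets

/-!
# Module RB of the board sae_modules (MP_45b854_al)
-/

set_option autoImplicit false

open Finset Equiv

namespace Pool.Agent.H74.SAE.RB

theorem card_fst {X β : Type} [Fintype β] (i : Fintype (X × β)) (x : X)
    (d : DecidablePred fun y : X × β => y.1 = x) :
    (@Finset.filter (X × β) (fun y => y.1 = x) d (@univ _ i)).card = Fintype.card β := by
  rw [← Finset.card_univ]
  refine (Finset.card_bij (fun b _ => (x, b)) ?_ ?_ ?_).symm
  · intro b _
    rw [Finset.mem_filter]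
    exact ⟨Finset.mem_univ _, rfl⟩
  · intro a _ b _ h
    exact (Prod.mk.inj h).2
  · rintro ⟨y, b⟩ h
    rw [Finset.mem_filter] at h
    exact ⟨b, Finset.mem_univ _, by rw [← h.2]⟩

open scoped Classical

open Pool.Agent.H4.SE
open Pool.Agent.H11.SAE (lp act verts)

/-- functions with the same fibres have the same entropy -/
theorem ent_congr (hEM : T_EM) {Ω α α' : Type} [Fintype Ω] (f : Ω → α) (g : Ω → α')
    (h : ∀ x y, f x = f y ↔ g x = g y) : ent f = ent g :=
  le_antisymm (hEM Ω α' α g f fun x y => (h x y).2) (hEM Ω α α' f g fun x y => (h x y).1)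

theorem pf_RB (hEM : T_EM) (hES : T_ES) (hEP : T_EP) : T_RB := by
  intro r d T k β _ _ _
  refine ⟨?_, ?_, ?_⟩
  · have h1 : ent (fun x : Om r k β × β => WQ T x.1) = AA T k β := by
      refine hEP (Om r k β) (Om r k β × β) _ Prod.fst (Fintype.card β) Fintype.card_pos ?_
        (fun ω => WQ T ω)
      intro x
      exact card_fst _ x _
    unfold rho
    rw [← h1, sub_eq_zero]
    refine ent_congr hEM _ _ fun x y => ?_
    constructor
    · intro h
      exact (Prod.mk.inj h).1
    · intro h
      refine Prod.ext h ?_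
      funext a
      exact absurd a.2 (Finset.notMem_empty _)
  · intro A B hAB
    unfold rho
    refine sub_le_sub_right (hEM _ _ _ _ _ fun x y h => ?_) _
    obtain ⟨h1, h2⟩ := Prod.mk.inj h
    refine Prod.ext h1 ?_
    funext a
    exact congrFun h2 ⟨a.1, hAB a.2⟩
  · intro A B
    unfold rho
    have h := hES (Om r k β × β) _ _ _
      (fun x => fun a : A => pos T x.1.1 x.2 a.1) (fun x => fun a : B => pos T x.1.1 x.2 a.1)
      (fun x => (WQ T x.1, fun a : (A ∩ B : Finset _) => pos T x.1.1 x.2 a.1))
    have e1 : ent (fun x : Om r k β × β => ((fun a : A => pos T x.1.1 x.2 a.1),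
        (fun a : B => pos T x.1.1 x.2 a.1),
        (WQ T x.1, fun a : (A ∩ B : Finset _) => pos T x.1.1 x.2 a.1))) =
        ent (fun x : Om r k β × β =>
          (WQ T x.1, fun a : (A ∪ B : Finset _) => pos T x.1.1 x.2 a.1)) := by
      refine ent_congr hEM _ _ fun x y => ?_
      constructor
      · intro h
        obtain ⟨h1, h2⟩ := Prod.mk.inj h
        obtain ⟨h3, h4⟩ := Prod.mk.inj h2
        obtain ⟨h5, -⟩ := Prod.mk.inj h4
        refine Prod.ext h5 ?_
        funext a
        rcases Finset.mem_union.1 a.2 with ha | ha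
        · exact congrFun h1 ⟨a.1, ha⟩
        · exact congrFun h3 ⟨a.1, ha⟩
      · intro h
        obtain ⟨h1, h2⟩ := Prod.mk.inj h
        refine Prod.ext ?_ (Prod.ext ?_ (Prod.ext h1 ?_))
        · funext a
          exact congrFun h2 ⟨a.1, Finset.mem_union_left _ a.2⟩
        · funext a
          exact congrFun h2 ⟨a.1, Finset.mem_union_right _ a.2⟩
        · funext a
          exact congrFun h2 ⟨a.1, Finset.mem_union_left _ (Finset.mem_inter.1 a.2).1⟩
    have e2 : ent (fun x : Om r k β × β => ((fun a : A => pos T x.1.1 x.2 a.1),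
        (WQ T x.1, fun a : (A ∩ B : Finset _) => pos T x.1.1 x.2 a.1))) =
        ent (fun x : Om r k β × β => (WQ T x.1, fun a : A => pos T x.1.1 x.2 a.1)) := by
      refine ent_congr hEM _ _ fun x y => ?_
      constructor
      · intro h
        obtain ⟨h1, h2⟩ := Prod.mk.inj h
        exact Prod.ext (Prod.mk.inj h2).1 h1
      · intro h
        obtain ⟨h1, h2⟩ := Prod.mk.inj h
        refine Prod.ext h2 (Prod.ext h1 ?_)
        funext a
        exact congrFun h2 ⟨a.1, (Finset.mem_inter.1 a.2).1⟩
    have e3 : ent (fun x : Om r k β × β => ((fun a : B => pos T x.1.1 x.2 a.1),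
        (WQ T x.1, fun a : (A ∩ B : Finset _) => pos T x.1.1 x.2 a.1))) =
        ent (fun x : Om r k β × β => (WQ T x.1, fun a : B => pos T x.1.1 x.2 a.1)) := by
      refine ent_congr hEM _ _ fun x y => ?_
      constructor
      · intro h
        obtain ⟨h1, h2⟩ := Prod.mk.inj h
        exact Prod.ext (Prod.mk.inj h2).1 h1
      · intro h
        obtain ⟨h1, h2⟩ := Prod.mk.inj h
        refine Prod.ext h2 (Prod.ext h1 ?_)
        funext a
        exact congrFun h2 ⟨a.1, (Finset.mem_inter.1 a.2).2⟩
    rw [e1, e2, e3] at h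
    linarith

end Pool.Agent.H74.SAE.RB
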