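import Pool.Agent.H4.SE.Targets

/-!
# Module WA of the board sae_modules (MP_45b854_al)
-/

set_option autoImplicit false

open Finset Equiv
open scoped Classical

namespace Pool.Agent.H74.SAE.WA

open Pool.Agent.H4.SE
open Pool.Agent.H11.SAE (lp act verts)

theorem pf_WA : T_WA := by
  intro r β _ _ σ T k v
  induction k with
  | zero => rfl
  | succ k ih =>
    rw [pp, Perm.mul_apply, ih]
    by_cases h : k < T.length
    · rw [List.getElem?_eq_getElem h, List.take_add_one, List.getElem?_eq_getElem h,
        Option.toList_some, List.reverse_append, List.reverse_singleton, List.singleton_append,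
        Pool.Agent.H11.SAE.act_cons]
    · have h1 : T.length ≤ k := Nat.le_of_not_lt h
      rw [List.getElem?_eq_none h1, List.take_of_length_le h1,
        List.take_of_length_le (h1.trans (Nat.le_succ k)), Perm.one_apply]

end Pool.Agent.H74.SAE.WA
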